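import Pool.Agent.W989.RG.Stm

/-! Project RG (helper989): counting in the cyclic band. -/

set_option autoImplicit false

namespace Pool.Agent.W319.RG

open Finset Pool.Agent.W989.RG

theorem inv1 (n i j : ℕ) (hi : i < n) (hj : j < n) : (i + (j + n - i) % n) % n = j := by
  rw [Nat.add_mod_mod]
  have : i + (j + n - i) = j + n := by omega
  rw [this, Nat.add_mod_right, Nat.mod_eq_of_lt hj]

theorem inv2 (n i k : ℕ) (hi : i < n) (hk : k < n) : ((i + k) % n + n - i) % n = k := by
  rcases lt_or_ge (i + k) n with h | h
  · rw [Nat.mod_eq_of_lt h]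
    have : i + k + n - i = k + n := by omega
    rw [this, Nat.add_mod_right, Nat.mod_eq_of_lt hk]
  · have h1 : (i + k) % n = i + k - n := by
      rw [Nat.mod_eq_sub_mod h, Nat.mod_eq_of_lt (by omega)]
    rw [h1]
    have : i + k - n + n - i = k := by omega
    rw [this, Nat.mod_eq_of_lt hk]

theorem inv3 (n j i : ℕ) (hj : j < n) (hi : i < n) : (j + n - (j + n - i) % n) % n = i := by
  rcases Nat.lt_or_ge j i with h | h
  · have h1 : (j + n - i) % n = j + n - i := Nat.mod_eq_of_lt (by omega)
    rw [h1]
    have : j + n - (j + n - i) = i := by omega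
    rw [this, Nat.mod_eq_of_lt hi]
  · have h1 : (j + n - i) % n = j - i := by
      have : j + n - i = (j - i) + n := by omega
      rw [this, Nat.add_mod_right, Nat.mod_eq_of_lt (by omega)]
    rw [h1]
    have : j + n - (j - i) = i + n := by omega
    rw [this, Nat.add_mod_right, Nat.mod_eq_of_lt hi]

theorem row (n d : ℕ) (hd : d ≤ n) (i : Fin n) :
    (univ.filter fun j : Fin n => ((j : ℕ) + n - (i : ℕ)) % n < d).card = d := by
  have hn : 0 < n := i.pos
  calc (univ.filter fun j : Fin n => ((j : ℕ) + n - (i : ℕ)) % n < d).card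
      = (range d).card := by
        refine card_bij' (fun j _ => ((j : ℕ) + n - (i : ℕ)) % n)
          (fun k _ => (⟨((i : ℕ) + k) % n, Nat.mod_lt _ hn⟩ : Fin n)) ?_ ?_ ?_ ?_
        · intro j hj
          exact mem_range.2 (mem_filter.1 hj).2
        · intro k hk
          rw [mem_filter]
          refine ⟨mem_univ _, ?_⟩
          show ((((i : ℕ) + k) % n) + n - (i : ℕ)) % n < d
          rw [inv2 n i k i.2 (lt_of_lt_of_le (mem_range.1 hk) hd)]
          exact mem_range.1 hk
        · intro j _
          exact Fin.ext (inv1 n i j i.2 j.2)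
        · intro k hk
          exact inv2 n i k i.2 (lt_of_lt_of_le (mem_range.1 hk) hd)
    _ = d := card_range d

theorem col (n d : ℕ) (hd : d ≤ n) (j : Fin n) :
    (univ.filter fun i : Fin n => ((j : ℕ) + n - (i : ℕ)) % n < d).card = d := by
  have hn : 0 < n := j.pos
  calc (univ.filter fun i : Fin n => ((j : ℕ) + n - (i : ℕ)) % n < d).card
      = (range d).card := by
        refine card_bij' (fun i _ => ((j : ℕ) + n - (i : ℕ)) % n)
          (fun k _ => (⟨((j : ℕ) + n - k) % n, Nat.mod_lt _ hn⟩ : Fin n)) ?_ ?_ ?_ ?_
        · intro i hi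
          exact mem_range.2 (mem_filter.1 hi).2
        · intro k hk
          rw [mem_filter]
          refine ⟨mem_univ _, ?_⟩
          show ((j : ℕ) + n - (((j : ℕ) + n - k) % n)) % n < d
          rw [inv3 n j k j.2 (lt_of_lt_of_le (mem_range.1 hk) hd)]
          exact mem_range.1 hk
        · intro i _
          exact Fin.ext (inv3 n j i j.2 i.2)
        · intro k hk
          exact inv3 n j k j.2 (lt_of_lt_of_le (mem_range.1 hk) hd)
    _ = d := card_range d

theorem card_band (n d : ℕ) (hd : d ≤ n) : (band n d).card = n * d := by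
  unfold band
  rw [card_filter, Fintype.sum_prod_type]
  have : ∀ i : Fin n, ∑ j : Fin n, (if ((j : ℕ) + n - (i : ℕ)) % n < d then 1 else 0) = d := by
    intro i
    rw [← card_filter]
    exact row n d hd i
  rw [sum_congr rfl fun i _ => this i]
  simp

theorem rowb (n d : ℕ) (hd : d ≤ n) (i : Fin n) :
    ((band n d).filter fun p => p.1 = i).card ≤ d := by
  classical
  calc ((band n d).filter fun p => p.1 = i).card
      ≤ ((univ.filter fun j : Fin n => ((j : ℕ) + n - (i : ℕ)) % n < d).image
          fun j => (i, j)).card := by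
        refine card_le_card ?_
        intro p hp
        obtain ⟨h1, h2⟩ := mem_filter.1 hp
        rw [mem_image]
        refine ⟨p.2, ?_, ?_⟩
        · rw [mem_filter]
          refine ⟨mem_univ _, ?_⟩
          have h3 := (mem_filter.1 h1).2
          rw [h2] at h3
          exact h3
        · exact Prod.ext h2.symm rfl
    _ ≤ _ := card_image_le
    _ = d := row n d hd i

theorem colb (n d : ℕ) (hd : d ≤ n) (j : Fin n) :
    ((band n d).filter fun p => p.2 = j).card ≤ d := by
  classical
  calc ((band n d).filter fun p => p.2 = j).card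
      ≤ ((univ.filter fun i : Fin n => ((j : ℕ) + n - (i : ℕ)) % n < d).image
          fun i => (i, j)).card := by
        refine card_le_card ?_
        intro p hp
        obtain ⟨h1, h2⟩ := mem_filter.1 hp
        rw [mem_image]
        refine ⟨p.1, ?_, ?_⟩
        · rw [mem_filter]
          refine ⟨mem_univ _, ?_⟩
          have h3 := (mem_filter.1 h1).2
          rw [h2] at h3
          exact h3
        · exact Prod.ext rfl h2.symm
    _ ≤ _ := card_image_le
    _ = d := col n d hd j

/-- counting in the band -/
theorem t_cnt : S_CNT := by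
  intro n d hd
  refine ⟨card_band n d hd, ?_⟩
  intro r s I J T hT
  classical
  have h1 : ((univ : Finset (Fin r)).biUnion fun t =>
      (band n d).filter fun p => p.1 = I t).card ≤ r * d := by
    have := card_biUnion_le_card_mul (univ : Finset (Fin r))
      (fun t => (band n d).filter fun p => p.1 = I t) d (fun t _ => rowb n d hd (I t))
    simpa using this
  have h2 : ((univ : Finset (Fin r)).biUnion fun t =>
      (band n d).filter fun p => p.2 = J t).card ≤ r * d := by
    have := card_biUnion_le_card_mul (univ : Finset (Fin r))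
      (fun t => (band n d).filter fun p => p.2 = J t) d (fun t _ => colb n d hd (J t))
    simpa using this
  have h3 : ((band n d ∪ T).filter (fun p => p.1 ∈ Set.range I ∨ p.2 ∈ Set.range J)) ⊆
      (((univ : Finset (Fin r)).biUnion fun t => (band n d).filter fun p => p.1 = I t) ∪
      ((univ : Finset (Fin r)).biUnion fun t => (band n d).filter fun p => p.2 = J t)) ∪ T := by
    intro p hp
    obtain ⟨hp1, hp2⟩ := mem_filter.1 hp
    rcases mem_union.1 hp1 with hb | hb
    · refine mem_union_left _ ?_
      rcases hp2 with ⟨t, ht⟩ | ⟨t, ht⟩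
      · refine mem_union_left _ (mem_biUnion.2 ⟨t, mem_univ _, mem_filter.2 ⟨hb, ht.symm⟩⟩)
      · refine mem_union_right _ (mem_biUnion.2 ⟨t, mem_univ _, mem_filter.2 ⟨hb, ht.symm⟩⟩)
    · exact mem_union_right _ hb
  have h4 := card_le_card h3
  have h5 := card_union_le (((univ : Finset (Fin r)).biUnion fun t =>
      (band n d).filter fun p => p.1 = I t) ∪
      ((univ : Finset (Fin r)).biUnion fun t => (band n d).filter fun p => p.2 = J t)) T
  have h6 := card_union_le ((univ : Finset (Fin r)).biUnion fun t =>
      (band n d).filter fun p => p.1 = I t)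
      ((univ : Finset (Fin r)).biUnion fun t => (band n d).filter fun p => p.2 = J t)
  have h7 : 2 * r * d = r * d + r * d := by ring
  rw [h7]
  refine le_trans (le_of_eq ?_) (h4.trans ?_)
  · congr 1
  · omega

end Pool.Agent.W319.RG
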